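import Mathlib
import Pool.Agent.V1199.AffBaire

open Set Filter Topology

namespace Pool.Agent.Results.MP_8da836_an.AffineBall

open Pool.Agent.V1199

/-- The approximation property of a normed space over `𝕜` (no bound on the norms). -/
def HasAP (𝕜 E : Type*) [RCLike 𝕜] [NormedAddCommGroup E] [NormedSpace 𝕜 E] : Prop :=
  ∀ C : Set E, IsCompact C → ∀ ε : ℝ, 0 < ε → ∃ T : E →L[𝕜] E,
    FiniteDimensional 𝕜 (LinearMap.range (T : E →ₗ[𝕜] E)) ∧ ∀ y ∈ C, ‖T y - y‖ < ε

/-- A map defined on the convex set `K` is affine. -/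
def IsAffine {V E : Type*} [AddCommGroup V] [Module ℝ V] [AddCommGroup E] [Module ℝ E] {K : Set V}
    (f : K → E) : Prop :=
  ∀ (x y z : K) (t : ℝ), 0 ≤ t → t ≤ 1 → (z : V) = t • (x : V) + (1 - t) • (y : V) →
    f z = t • f x + (1 - t) • f y

/-- `C₁(K, L)`: pointwise limits of sequences of continuous maps `K → L`. -/
def C1 {V E : Type*} [TopologicalSpace V] [TopologicalSpace E] (K : Set V) (L : Set E) :
    Set (K → E) :=
  {f | (∀ x, f x ∈ L) ∧ ∃ g : ℕ → K → E, (∀ n, Continuous (g n)) ∧ (∀ n x, g n x ∈ L) ∧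
    ∀ x, Tendsto (fun n => g n x) atTop (𝓝 (f x))}

/-- `A₁(K, L)`: pointwise limits of sequences of continuous affine maps `K → L`. -/
def A1 {V E : Type*} [AddCommGroup V] [Module ℝ V] [TopologicalSpace V] [AddCommGroup E]
    [Module ℝ E] [TopologicalSpace E] (K : Set V) (L : Set E) : Set (K → E) :=
  {f | (∀ x, f x ∈ L) ∧ ∃ a : ℕ → K → E, (∀ n, Continuous (a n)) ∧ (∀ n, IsAffine (a n)) ∧
    (∀ n x, a n x ∈ L) ∧ ∀ x, Tendsto (fun n => a n x) atTop (𝓝 (f x))}

/-- Let `E` be a real or complex Banach space with the approximation property (this is weaker than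
the bounded approximation property) and let `K` be a compact convex subset of a Hausdorff locally
convex space. Every affine map in `C₁(K, B_E)` is in `A₁(K, B_E)`. -/
theorem result {𝕜 E : Type*} [RCLike 𝕜] [NormedAddCommGroup E] [NormedSpace ℝ E]
    [NormedSpace 𝕜 E] [IsScalarTower ℝ 𝕜 E] (hE : HasAP 𝕜 E)
    {V : Type*} [AddCommGroup V] [Module ℝ V] [TopologicalSpace V]
    [IsTopologicalAddGroup V] [ContinuousSMul ℝ V] [LocallyConvexSpace ℝ V] [T2Space V]
    {K : Set V} (hK : IsCompact K) (hKc : Convex ℝ K) {f : K → E} (hf : IsAffine f)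
    (hf1 : f ∈ C1 K (Metric.closedBall (0 : E) 1)) : f ∈ A1 K (Metric.closedBall (0 : E) 1) := by
  have hKcomp : CompactSpace K := isCompact_iff_compactSpace.mp hK
  obtain ⟨hfB, g, hgc, hgB, hg⟩ := hf1
  have hAP : AffBaire.HasAP 𝕜 E := by
    intro C hC ε hε
    obtain ⟨T, hT1, hT2⟩ := hE C hC ε hε
    exact ⟨T, hT1, fun y hy => (hT2 y hy).le⟩
  obtain ⟨a, ha1, ha2, ha3⟩ := AffBaire.exists_affine_seq hKc hAP (f := f) hf one_pos
    (fun n => ⟨g n, hgc n⟩) (fun n x => by simpa using hgB n x) hg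
  exact ⟨hfB, fun n => a n, fun n => (a n).continuous, ha1, fun n x => by simpa using ha2 n x, ha3⟩

end Pool.Agent.Results.MP_8da836_an.AffineBall
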